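import Pool.Agent.Y877.SxI
import Pool.Agent.Y886.EPB

/-!
# Decompositions `n = k + m` of EVERY large `n`: `6 k - 1` prime, `6 k + 1` a product of at most two primes and
`p_m + h` prime, for almost all multiples `h` of a small primorial
-/

set_option autoImplicit false

open Finset Filter

namespace Pool.Agent.Results.MP_ea8352_nt.ChenIndexShifts

/-- the `j`-th prime, `p 1 = 2` -/
noncomputable def p (j : ℕ) : ℕ := Nat.nth Nat.Prime (j - 1)

/-- the product of `1 - 1/q` over the primes `q ≤ y` -/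
noncomputable def V (y : ℕ) : ℝ := ∏ q ∈ (Icc 1 y).filter Nat.Prime, (1 - 1 / (q : ℝ))

open Classical in
/-- the `0 < k < n` such that `6 k - 1` is a prime and `6 k + 1` is a prime or a product of two primes -/
noncomputable def Chen (n : ℕ) : Finset ℕ :=
  (Ioo 0 n).filter (fun k => (6 * k - 1).Prime ∧ (6 * k + 1).primeFactorsList.length ≤ 2)

/-- the `k ∈ K` such that `p_m + h` is prime, where `m = n - k` -/
noncomputable def Good (n : ℕ) (K : Finset ℕ) (h : ℕ) : Finset ℕ := K.filter (fun k => (p (n - k) + h).Prime)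

theorem nth_inj : Function.Injective (Nat.nth Nat.Prime) := Nat.nth_injective Nat.infinite_setOfPred_prime

theorem chen_low : ∃ c : ℝ, 0 < c ∧ ∃ n₀ : ℕ, ∀ n : ℕ, n₀ ≤ n → c * n / Real.log n ^ 2 ≤ ((Chen n).card : ℝ) := by
  classical
  obtain ⟨κ, hκ, hmany⟩ := Pool.Agent.Y886.EP.count_CP
  obtain ⟨X0, hX0⟩ := eventually_atTop.1 hmany
  refine ⟨κ / 4, by positivity, 2 * X0 + 20, fun n hn => ?_⟩
  obtain ⟨X, hX⟩ : ∃ X : ℕ, X = (n - 1) / 2 := ⟨_, rfl⟩
  have b1 : X0 ≤ X := by omega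
  have b2 : 3 ≤ X := by omega
  have b3 : 2 * X < n := by omega
  have b4 : n ≤ 4 * X := by omega
  have h1 := hX0 X b1
  have h2 : ((Finset.Ioc X (2 * X)).filter (fun k => Pool.Agent.Y886.EP.CP X k)).card ≤ (Chen n).card := by
    apply card_le_card
    intro k hk
    rw [mem_filter, mem_Ioc] at hk
    unfold Chen
    rw [mem_filter, mem_Ioo]
    exact ⟨⟨by omega, by omega⟩, hk.2.1, hk.2.2.1⟩
  have h3 : (((Finset.Ioc X (2 * X)).filter (fun k => Pool.Agent.Y886.EP.CP X k)).card : ℝ) ≤ (Chen n).card := by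
    exact_mod_cast h2
  refine le_trans ?_ (h1.trans h3)
  have hXr : (3 : ℝ) ≤ X := by exact_mod_cast b2
  have hnX : (X : ℝ) ≤ n := by exact_mod_cast (by omega : X ≤ n)
  have hn4 : (n : ℝ) ≤ 4 * X := by exact_mod_cast b4
  have hL : 0 < Real.log X := Real.log_pos (by linarith)
  have hLn : Real.log X ≤ Real.log n := Real.log_le_log (by linarith) hnX
  have hL2 : Real.log X ^ 2 ≤ Real.log n ^ 2 := pow_le_pow_left₀ hL.le hLn 2
  have hLn0 : 0 < Real.log n := by linarith
  rw [div_le_div_iff₀ (by positivity) (by positivity)]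
  have h5 : κ / 4 * n ≤ κ * X := by nlinarith
  calc κ / 4 * n * Real.log X ^ 2 ≤ (κ * X) * Real.log X ^ 2 := mul_le_mul_of_nonneg_right h5 (by positivity)
    _ ≤ (κ * X) * Real.log n ^ 2 := mul_le_mul_of_nonneg_left hL2 (by positivity)

/-- There is an absolute constant `c > 0` such that for all `A`, `C` and `0 < ε ≤ 1` there is `K₀` such that for every `K₁` and
every large `n`, every `y` between `K₀ log log n` and `K₁ log log n`, and every window `(g₀, g₀ + G]` with `M (g₀ + G) ≤ n`,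
`G ≥ n / (M log ^ C n)`, where `M` is the product of the primes `≤ y`: (1) for every set `K` of at least `n / log ^ A n`
integers `0 < k < n`, for all but at most `ε G` of the `g ≤ G` the number `p_m + M (g₀ + g)`, `m = n - k`, is prime for at
least `(1 - ε) #K / (V y log n)` elements `k` of `K`; (2) there are at least `c n / log ^ 2 n` integers `0 < k < n` with
`6 k - 1` prime and `6 k + 1` a product of at most two primes, and the conclusion of (1) holds for the set of all these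
`k`. -/
theorem result : ∃ c : ℝ, 0 < c ∧ ∀ (A C : ℕ) (ε : ℝ), 0 < ε → ε ≤ 1 → ∃ K₀ : ℕ, ∀ K₁ : ℕ, ∃ n₀ : ℕ, ∀ n : ℕ, n₀ ≤ n →
    ∀ y : ℕ, K₀ * Real.log (Real.log n) ≤ y → y ≤ K₁ * Real.log (Real.log n) →
    ∀ g₀ G : ℕ, primorial y * (g₀ + G) ≤ n → (n : ℝ) ≤ primorial y * G * Real.log n ^ C →
    (∀ K : Finset ℕ, K ⊆ Ioo 0 n → (n : ℝ) ≤ K.card * Real.log n ^ A →
      (((Icc 1 G).filter (fun g => ((Good n K (primorial y * (g₀ + g))).card : ℝ) <
        (1 - ε) * (K.card / (V y * Real.log n)))).card : ℝ) ≤ ε * G) ∧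
    c * n / Real.log n ^ 2 ≤ ((Chen n).card : ℝ) ∧
    (((Icc 1 G).filter (fun g => ((Good n (Chen n) (primorial y * (g₀ + g))).card : ℝ) <
      (1 - ε) * ((Chen n).card / (V y * Real.log n)))).card : ℝ) ≤ ε * G := by
  obtain ⟨c, hc, n1, hn1⟩ := chen_low
  refine ⟨c, hc, fun A C ε hε hε1 => ?_⟩
  obtain ⟨K₀, hK₀⟩ := Pool.Agent.Y877.SX.step 1 (Or.inl rfl) (max A 3) 2 C ε hε hε1
  refine ⟨K₀, fun K₁ => ?_⟩
  obtain ⟨n2, hn2⟩ := hK₀ K₁
  obtain ⟨n3, hn3⟩ := Pool.Agent.H373R2.T7.ev_L' (max 1 (1 / c))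
  obtain ⟨n4, hn4⟩ := Pool.Agent.Y877.SX.nth_le_log
  refine ⟨max (max n1 n2) (max n3 (max n4 1)), fun n hn y hy1 hy2 g₀ G hg1 hg2 => ?_⟩
  have b1 : n1 ≤ n := le_trans (le_trans (le_max_left _ _) (le_max_left _ _)) hn
  have b2 : n2 ≤ n := le_trans (le_trans (le_max_right _ _) (le_max_left _ _)) hn
  have b3 : n3 ≤ n := le_trans (le_trans (le_max_left _ _) (le_max_right _ _)) hn
  have b4 : n4 ≤ n := le_trans (le_trans (le_trans (le_max_left _ _) (le_max_right _ _)) (le_max_right _ _)) hn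
  have b5 : 1 ≤ n := le_trans (le_trans (le_trans (le_max_right _ _) (le_max_right _ _)) (le_max_right _ _)) hn
  have hL := hn3 n b3
  have hL1 : 1 ≤ Real.log n := (le_max_left _ _).trans hL
  have hL2 : 1 / c ≤ Real.log n := (le_max_right _ _).trans hL
  have hlow := hn1 n b1
  have main : ∀ K : Finset ℕ, K ⊆ Ioo 0 n → (n : ℝ) ≤ K.card * Real.log n ^ (max A 3) →
      (((Icc 1 G).filter (fun g => ((Good n K (primorial y * (g₀ + g))).card : ℝ) <
        (1 - ε) * (K.card / (V y * Real.log n)))).card : ℝ) ≤ ε * G := by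
    intro K hK hKc
    have h1 := hn2 n b2 y hy1 hy2 K hKc (fun k => p (n - k))
      (fun a ha b hb hab => by
        have h3 := mem_Ioo.1 (hK (by exact_mod_cast ha))
        have h4 := mem_Ioo.1 (hK (by exact_mod_cast hb))
        have := nth_inj hab
        omega)
      (fun k hk => ⟨Nat.prime_nth_prime _, hn4 n b4 (n - k - 1) (by omega)⟩) g₀ G (by rw [pow_one]; exact hg1)
      (by rw [pow_one]; exact hg2)
    refine le_trans (le_of_eq ?_) h1
    congr 2
    apply filter_congr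
    intro g _
    simp only [pow_one, Nat.cast_one, one_mul]
    rfl
  refine ⟨fun K hK hKc => main K hK (hKc.trans ?_), hlow, main (Chen n) ?_ ?_⟩
  · apply mul_le_mul_of_nonneg_left _ (Nat.cast_nonneg _)
    exact pow_le_pow_right₀ hL1 (le_max_left _ _)
  · classical
    exact filter_subset _ _
  · have h3 : Real.log n ^ 3 ≤ Real.log n ^ (max A 3) := pow_le_pow_right₀ hL1 (le_max_right _ _)
    refine le_trans ?_ (mul_le_mul_of_nonneg_left h3 (Nat.cast_nonneg _))
    have hL0 : 0 < Real.log n := by linarith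
    rw [div_le_iff₀ (by positivity)] at hlow
    rw [div_le_iff₀ hc] at hL2
    have hn0 : (0 : ℝ) ≤ n := Nat.cast_nonneg n
    calc (n : ℝ) = n * 1 := by ring
      _ ≤ n * (Real.log n * c) := mul_le_mul_of_nonneg_left hL2 hn0
      _ = (c * n) * Real.log n := by ring
      _ ≤ ((Chen n).card * Real.log n ^ 2) * Real.log n := mul_le_mul_of_nonneg_right hlow hL0.le
      _ = _ := by ring

end Pool.Agent.Results.MP_ea8352_nt.ChenIndexShifts
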