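import Pool.Agent.R518.C.Ind

set_option autoImplicit false

/-!
# For every large `n` many `n = k + m` with `k` in a class and almost prime `p_m + 2`
-/

namespace Pool.Agent.Results.MP_ea8352_nt.IndexClasses

open Finset Filter

/-- The `m`-th prime: `p 1 = 2`, `p 2 = 3`, and so on. -/
noncomputable def p (m : ℕ) : ℕ := Nat.nth Nat.Prime (m - 1)

open Classical in
/-- The `m ≥ 1` such that each of the numbers `m' = m, m + u, ..., m + l u` satisfies: `m' < n`, `k = n - m'` is
`≡ κ` modulo `u`, `6 k - 1` and `6 k + 1` are prime to `u`, and `p_{m'} + 2` has at most `R` prime factors, counted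
with multiplicity. -/
noncomputable def Good (u l R κ n : ℕ) : Finset ℕ :=
  (range n).filter (fun m => 1 ≤ m ∧ ∀ i ≤ l, m + i * u < n ∧ n - (m + i * u) ≡ κ [MOD u] ∧
    (6 * (n - (m + i * u)) - 1).Coprime u ∧ (6 * (n - (m + i * u)) + 1).Coprime u ∧
    (p (m + i * u) + 2).primeFactorsList.length ≤ R)

theorem cop {u κ k : ℕ} (hk : 1 ≤ k) (h : k ≡ κ [MOD u])
    (h1 : IsCoprime (6 * (κ : ℤ) - 1) (u : ℤ)) (h2 : IsCoprime (6 * (κ : ℤ) + 1) (u : ℤ)) :
    (6 * k - 1).Coprime u ∧ (6 * k + 1).Coprime u := by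
  have h0 : (u : ℤ) ∣ (κ : ℤ) - k := Nat.modEq_iff_dvd.1 h
  obtain ⟨c, hc⟩ := h0
  constructor
  · rw [← Nat.isCoprime_iff_coprime]
    have e : ((6 * k - 1 : ℕ) : ℤ) = (6 * (κ : ℤ) - 1) + (u : ℤ) * (-6 * c) := by
      rw [Nat.cast_sub (by omega)]
      push_cast
      linear_combination (-6 : ℤ) * hc
    rw [e]
    exact (IsCoprime.add_mul_left_left_iff).2 h1
  · rw [← Nat.isCoprime_iff_coprime]
    have e : ((6 * k + 1 : ℕ) : ℤ) = (6 * (κ : ℤ) + 1) + (u : ℤ) * (-6 * c) := by
      push_cast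
      linear_combination (-6 : ℤ) * hc
    rw [e]
    exact (IsCoprime.add_mul_left_left_iff).2 h2

/-- **Every large `n`.** For every `u ≥ 1` (for instance the product of all primes up to a given bound) and every `l`
there are `R` and `D` such that for every `κ` for which `6 κ - 1` and `6 κ + 1` are prime to `u` (for instance
`κ = 0`) and for EVERY large `n` there are at least `n / (log n) ^ D` numbers `m ≥ 1` such that each of
`m' = m, m + u, ..., m + l u` is less than `n`, `k = n - m'` is `≡ κ` modulo `u`, `6 k - 1` and `6 k + 1` have no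
prime factor in common with `u`, and `p_{m'} + 2` has at most `R` prime factors. -/
theorem result (u l : ℕ) (hu : 1 ≤ u) : ∃ R D : ℕ, ∀ κ : ℕ,
    IsCoprime (6 * (κ : ℤ) - 1) (u : ℤ) → IsCoprime (6 * (κ : ℤ) + 1) (u : ℤ) → ∀ᶠ n : ℕ in atTop,
    (n : ℝ) / Real.log n ^ D ≤ ((Good u l R κ n).card : ℝ) := by
  obtain ⟨R, D, x₀, h⟩ := Pool.Agent.R518.C.core u l hu
  refine ⟨R, D, fun κ hκ1 hκ2 => ?_⟩
  filter_upwards [eventually_ge_atTop x₀] with n hn
  refine (h n hn (n + (u - 1) * κ)).trans ?_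
  apply Nat.cast_le.2
  apply Finset.card_le_card
  intro m hm
  unfold Pool.Agent.R518.C.Js at hm
  rw [mem_filter, mem_range] at hm
  obtain ⟨h1, h2, h3, h4⟩ := hm
  unfold Good
  rw [mem_filter, mem_range]
  refine ⟨h1, by omega, fun i hi => ?_⟩
  obtain ⟨h5, h6⟩ := h4 i hi
  have h8 : n - (m + i * u) ≡ κ [MOD u] := by
    have e1 : m + i * u ≡ n + (u - 1) * κ [MOD u] := by
      have e3 : m + i * u ≡ m [MOD u] := by
        unfold Nat.ModEq
        rw [Nat.add_mul_mod_self_right]
      exact e3.trans h3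
    have e2 : (n - (m + i * u)) + (m + i * u) ≡ κ + (m + i * u) [MOD u] := by
      have e4 : (n - (m + i * u)) + (m + i * u) = n := by omega
      rw [e4]
      have e5 : κ + (m + i * u) ≡ κ + (n + (u - 1) * κ) [MOD u] := Nat.ModEq.add_left κ e1
      have e6 : κ + (n + (u - 1) * κ) = n + κ * u := by
        obtain ⟨v, hv⟩ : ∃ v, u = v + 1 := ⟨u - 1, by omega⟩
        subst hv
        simp only [Nat.add_sub_cancel]
        ring
      rw [e6] at e5
      have e7 : n + κ * u ≡ n [MOD u] := by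
        unfold Nat.ModEq
        rw [Nat.add_mul_mod_self_right]
      exact (e5.trans e7).symm
    exact Nat.ModEq.add_right_cancel' _ e2
  obtain ⟨h9, h10⟩ := cop (by omega) h8 hκ1 hκ2
  refine ⟨h5, h8, h9, h10, ?_⟩
  unfold p
  rw [← ArithmeticFunction.cardFactors_apply]
  exact h6

end Pool.Agent.Results.MP_ea8352_nt.IndexClasses
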