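import Pool.Agent.R518.B.Sixk

set_option autoImplicit false

/-!
# Regular points of arbitrary sets of the `k` with `6 k - 1` and `6 k + 1` prime or rough, in progressions
-/

namespace Pool.Agent.Results.MP_ea8352_nt.RegularPoints

open Finset Filter

/-- `p` divides `6 k - 1` or `6 k + 1`, where `k = q m + a`, `a ≥ 1`. -/
def Divides (q a p m : ℕ) : Prop := p ∣ 6 * (q * m + a) - 1 ∨ p ∣ 6 * (q * m + a) + 1

/-- Neither `6 k - 1` nor `6 k + 1`, `k = q m + a`, has a prime factor `≤ y`. -/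
def Rough (q a y m : ℕ) : Prop := ∀ p : ℕ, p.Prime → p ≤ y → ¬ Divides q a p m

open Classical in
/-- The density of these `m`: the product of `1 - ν(p) / p` over the primes `p ≤ y`, where `ν(p)` is the number
of the residues `m` modulo `p` with `Divides q a p m` (`0` if `p` divides `6 q`, and else `2`). -/
noncomputable def V (q a y : ℕ) : ℝ := ∏ p ∈ (Finset.range (y + 1)).filter Nat.Prime,
    (1 - (((Finset.range p).filter (fun m : ℕ => Divides q a p m)).card : ℝ) / p)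

open Classical in
/-- The number of elements of `S` in `(a, b]`. -/
noncomputable def count (S : Set ℕ) (a b : ℕ) : ℕ := ((Finset.Ioc a b).filter (fun m => m ∈ S)).card

/-- All intervals `(m - s, m + t]` with `s, t ≤ Y` of length at least `L / κ` contain between
`κ (s + t) / L` and `(s + t) / (κ L)` elements of `S`. -/
def RightOrder (S : Set ℕ) (L κ : ℝ) (Y m : ℕ) : Prop :=
  ∀ s t : ℕ, s ≤ Y → t ≤ Y → L ≤ κ * (s + t) →
    κ * (s + t) / L ≤ count S (m - s) (m + t) ∧ (count S (m - s) (m + t) : ℝ) ≤ (s + t) / (κ * L)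

/-- Up to `δ`, `S` has a constant density on both sides of `m` up to the distance `2 ^ j`. -/
def ConstantDensity (S : Set ℕ) (L κ δ : ℝ) (m j : ℕ) : Prop :=
  ∃ lam : ℝ, κ ≤ lam ∧ lam ≤ 1 / κ ∧ ∀ s t : ℕ, s ≤ 2 ^ j → t ≤ 2 ^ j →
    |(count S (m - s) (m + t) : ℝ) - lam * (s + t) / L| ≤ δ * 2 ^ j / L

open Classical in
/-- The number of the scales `L ≤ 2 ^ j ≤ Y` without this property. -/
noncomputable def badScales (S : Set ℕ) (L κ δ : ℝ) (Y m : ℕ) : ℕ :=
  ((Finset.range (Nat.log 2 Y + 1)).filter (fun j => L ≤ (2 : ℝ) ^ j ∧ ¬ ConstantDensity S L κ δ m j)).card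

/-- The elements of `S` that are not regular points of `S`. -/
def Irregular (S : Set ℕ) (L κ δ : ℝ) (M Y : ℕ) : Set ℕ :=
  {m | m ∈ S ∧ ¬ (RightOrder S L κ Y m ∧ badScales S L κ δ Y m ≤ M)}

/-- **Regular points.** Let `A` and `θ > 0` be given and `r ≥ r0(A, θ)`. For `ε > 0` there is `κ > 0`, and for
`δ > 0` there is `M`, such that for all large `X`, for ALL moduli `1 ≤ q ≤ X ^ A` and all residues `1 ≤ a ≤ q`
with `6 a - 1` and `6 a + 1` prime to `q`, all `X ^ θ ≤ Y ≤ X`, `u ≥ Y`, and EVERY set `S` of integers `m` such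
that neither `6 k - 1` nor `6 k + 1`, `k = q m + a`, has a prime factor `≤ X ^ (1 / r)`, for instance the set
of all `m` for which both are primes `> X ^ (1 / r)`: all but at most `ε Y V` of the elements of `S` in
`(u, u + Y]` are regular points of `S`: all intervals of length between `1 / (κ V)` and `Y` around them
contain the right order of elements of `S`, and `S` has a constant density up to `δ` around them at all but
`M` dyadic scales. -/
theorem result (A : ℕ) (θ : ℝ) (hθ : 0 < θ) :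
    ∃ r0 : ℕ, 2 ≤ r0 ∧ ∀ r : ℕ, r0 ≤ r → ∀ ε : ℝ, 0 < ε → ∃ κ : ℝ, 0 < κ ∧
      ∀ δ : ℝ, 0 < δ → ∃ M : ℕ, ∀ᶠ X : ℕ in atTop, ∀ q a : ℕ, 1 ≤ q → q ≤ X ^ A → 1 ≤ a → a ≤ q →
      Nat.Coprime q (6 * a - 1) → Nat.Coprime q (6 * a + 1) →
      ∀ u Y : ℕ, (X : ℝ) ^ θ ≤ Y → Y ≤ X → Y ≤ u →
      ∀ S : Set ℕ, (∀ m ∈ S, Rough q a ⌊(X : ℝ) ^ (1 / (r : ℝ))⌋₊ m) →
        (count (Irregular S (1 / V q a ⌊(X : ℝ) ^ (1 / (r : ℝ))⌋₊) κ δ M Y) u (u + Y) : ℝ) ≤
          ε * (Y * V q a ⌊(X : ℝ) ^ (1 / (r : ℝ))⌋₊) := by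
  obtain ⟨r0, hr0, h0⟩ := Pool.Agent.R490.Pg.regR 2 (A + 1) le_rfl θ hθ
  refine ⟨r0, hr0, fun r hr ε hε => ?_⟩
  obtain ⟨κ, hκ, h1⟩ := h0 r hr ε hε
  refine ⟨κ, hκ, fun δ hδ => ?_⟩
  obtain ⟨M, h2⟩ := h1 δ hδ
  refine ⟨M, ?_⟩
  filter_upwards [h2, eventually_ge_atTop 8] with X hX hX8
  intro q a hq hqX ha haq hc1 hc2 u Y hY hYX hYu S hS
  exact hX _ (Divides q a) (Pool.Agent.R518.SK.card q a) (Pool.Agent.R518.SK.rep q a ha)
    (Pool.Agent.R518.SK.good q a X A hX8 hq hqX ha haq hc1 hc2) u Y hY hYX hYu S hS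

end Pool.Agent.Results.MP_ea8352_nt.RegularPoints
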