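import Pool.Agent.R518.B.Sixk

set_option autoImplicit false

/-!
# Rough pairs `6 k - 1`, `6 k + 1` with `k` in an arithmetic progression: the law of the spacings
-/

namespace Pool.Agent.Results.MP_ea8352_nt.SpacingLaw

open Finset Filter

/-- `p` divides `6 k - 1` or `6 k + 1`, where `k = q m + a`, `a ≥ 1`. -/
def Divides (q a p m : ℕ) : Prop := p ∣ 6 * (q * m + a) - 1 ∨ p ∣ 6 * (q * m + a) + 1

/-- Neither `6 k - 1` nor `6 k + 1`, `k = q m + a`, has a prime factor `≤ y`. -/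
def Rough (q a y m : ℕ) : Prop := ∀ p : ℕ, p.Prime → p ≤ y → ¬ Divides q a p m

open Classical in
/-- The density of these `m`: the product of `1 - ν(p) / p` over the primes `p ≤ y`, where `ν(p)` is the number
of the residues `m` modulo `p` with `Divides q a p m` (`0` if `p` divides `6 q`, and else `2`). -/
noncomputable def V (q a y : ℕ) : ℝ := ∏ p ∈ (Finset.range (y + 1)).filter Nat.Prime,
    (1 - (((Finset.range p).filter (fun m : ℕ => Divides q a p m)).card : ℝ) / p)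

open Classical in
/-- The number of the `m` in `(u, u + Y]` with `Rough q a y m` for which fewer than `l` of the `T` integers
before `m` have this property. -/
noncomputable def D (q a y l T u Y : ℕ) : ℕ :=
  ((Ioc u (u + Y)).filter (fun m => Rough q a y m ∧
    ((Ico (m - T) m).filter (fun m' => Rough q a y m')).card < l)).card

open Classical in
/-- **The law of the spacings.** For all `A`, `θ > 0`, `l0`, `x0` and `ε > 0` there is `r0` such that for `r ≥ r0`
and all large `X` the following holds for ALL moduli `1 ≤ q ≤ X ^ A` and all residues `1 ≤ a ≤ q` with `6 a - 1`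
and `6 a + 1` prime to `q`, and for EVERY interval `(u, u + Y]`, `Y ≥ X ^ θ`: among the `m` in it for which
neither `6 k - 1` nor `6 k + 1`, `k = q m + a`, has a prime factor `≤ X ^ (1 / r)`, the distances to the
`l`-th preceding one have, in units `1 / V` and up to `ε`, the distribution which belongs to a Poisson
process; for `l = 1` it is the exponential distribution. -/
theorem result (A : ℕ) (θ : ℝ) (hθ : 0 < θ) (l0 : ℕ) (x0 ε : ℝ) (hε : 0 < ε) :
    ∃ r0 : ℕ, ∀ r : ℕ, r0 ≤ r → ∀ᶠ X : ℕ in atTop, ∀ q a : ℕ, 1 ≤ q → q ≤ X ^ A → 1 ≤ a → a ≤ q →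
      Nat.Coprime q (6 * a - 1) → Nat.Coprime q (6 * a + 1) →
      ∀ u Y : ℕ, (X : ℝ) ^ θ ≤ Y → ∀ l T : ℕ, (l ≤ l0 ∨ T * V q a ⌊(X : ℝ) ^ (1 / (r : ℝ))⌋₊ ≤ x0) →
        |(D q a ⌊(X : ℝ) ^ (1 / (r : ℝ))⌋₊ l T u Y : ℝ) - Y * V q a ⌊(X : ℝ) ^ (1 / (r : ℝ))⌋₊ *
          ∑ j ∈ range l, Real.exp (-(T * V q a ⌊(X : ℝ) ^ (1 / (r : ℝ))⌋₊)) *
            (T * V q a ⌊(X : ℝ) ^ (1 / (r : ℝ))⌋₊) ^ j / j.factorial| ≤
          ε * (Y * V q a ⌊(X : ℝ) ^ (1 / (r : ℝ))⌋₊) := by
  obtain ⟨r0, h0⟩ := Pool.Agent.R490.Pg.gapR 2 (A + 1) le_rfl θ hθ l0 x0 ε hε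
  refine ⟨r0, fun r hr => ?_⟩
  filter_upwards [h0 r hr, eventually_ge_atTop 8] with X hX hX8
  intro q a hq hqX ha haq hc1 hc2 u Y hY l T hT
  exact hX _ (Divides q a) (Pool.Agent.R518.SK.card q a) (Pool.Agent.R518.SK.rep q a ha)
    (Pool.Agent.R518.SK.good q a X A hX8 hq hqX ha haq hc1 hc2)
    (Pool.Agent.R518.SK.noT q a hq) u Y hY l T hT

end Pool.Agent.Results.MP_ea8352_nt.SpacingLaw
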